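import Mathlib
import Pool.Agent.L7h70.GC.Stm

set_option autoImplicit false

namespace Pool.Agent.L7h97.GC

open Finset
open Pool.Agent.L7h70.GC

theorem s_SWAP : S_SWAP := by
  intro ι _ _ i₀ X F
  rw [← Finset.sum_product', Finset.mul_sum]
  have h : ∀ x ∈ Fintype.piFinset X, ((X i₀).card : ℝ) * F x = ∑ _z ∈ X i₀, F x := by
    intro x _
    rw [Finset.sum_const, nsmul_eq_mul]
  rw [Finset.sum_congr rfl h, ← Finset.sum_product' (Fintype.piFinset X) (X i₀) fun x _ => F x]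
  refine Finset.sum_nbij' (fun p => (Function.update p.1 i₀ p.2, p.1 i₀))
    (fun p => (Function.update p.1 i₀ p.2, p.1 i₀)) ?_ ?_ ?_ ?_ ?_
  · rintro ⟨x, z⟩ hp
    rw [Finset.mem_product] at hp ⊢
    obtain ⟨h1, h2⟩ := hp
    simp only [Fintype.mem_piFinset] at h1 h2 ⊢
    refine ⟨fun i => ?_, h1 i₀⟩
    by_cases hi : i = i₀
    · subst hi; simpa using h2
    · rw [Function.update_of_ne hi]; exact h1 i
  · rintro ⟨x, z⟩ hp
    rw [Finset.mem_product] at hp ⊢
    obtain ⟨h1, h2⟩ := hp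
    simp only [Fintype.mem_piFinset] at h1 h2 ⊢
    refine ⟨fun i => ?_, h1 i₀⟩
    by_cases hi : i = i₀
    · subst hi; simpa using h2
    · rw [Function.update_of_ne hi]; exact h1 i
  · rintro ⟨x, z⟩ _
    simp
  · rintro ⟨x, z⟩ _
    simp
  · rintro ⟨x, z⟩ _
    rfl

end Pool.Agent.L7h97.GC
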