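import Mathlib
import Pool.Agent.L7h97.GC.Swap

set_option autoImplicit false

namespace Pool.Agent.L7h97.GC

open Finset MeasureTheory Filter
open Pool.Agent.L7h70.GC

theorem rpow_sub_le (c v z : ℝ) (hc : 1 ≤ c) (hz : 0 < z) (hv : 0 ≤ v) :
    z ^ c - v ^ c ≤ c * z ^ (c - 1) * (z - v) := by
  have h1 : -1 ≤ (v - z) / z := by
    rw [le_div_iff₀ hz]
    linarith
  have h2 := one_add_mul_self_le_rpow_one_add h1 hc
  have h3 : 1 + (v - z) / z = v / z := by
    field_simp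
    ring
  rw [h3, Real.div_rpow hv hz.le] at h2
  have hzc : 0 < z ^ c := Real.rpow_pos_of_pos hz c
  have h4 : z ^ c = z ^ (c - 1) * z := by
    rw [← Real.rpow_add_one hz.ne']
    congr 1
    ring
  rw [le_div_iff₀ hzc] at h2
  have h5 : (1 + c * ((v - z) / z)) * z ^ c = z ^ c + c * (v - z) * z ^ (c - 1) := by
    nth_rewrite 2 [h4]
    rw [add_mul, one_mul, h4]
    field_simp
  rw [h5] at h2
  nlinarith [h2]

theorem card_ge (v h : ℝ) (hv : 0 ≤ v) :
    h - 1 ≤ ((Ioc ⌊v⌋₊ ⌊v + h⌋₊).card : ℝ) := by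
  rw [Nat.card_Ioc]
  have h1 : v + h < ⌊v + h⌋₊ + 1 := Nat.lt_floor_add_one _
  have h2 : (⌊v⌋₊ : ℝ) ≤ v := Nat.floor_le hv
  have h3 : ((⌊v + h⌋₊ : ℝ)) - (⌊v⌋₊ : ℝ) ≤ ((⌊v + h⌋₊ - ⌊v⌋₊ : ℕ) : ℝ) := by
    rw [sub_le_iff_le_add]
    exact_mod_cast (le_tsub_add : ⌊v + h⌋₊ ≤ ⌊v + h⌋₊ - ⌊v⌋₊ + ⌊v⌋₊)
  linarith

theorem card_XX_ge (n : ℝ) (hn : 1 ≤ n) : n ≤ ((XX n).card : ℝ) := by
  have h := card_ge n (3 * n) (by linarith)
  have h1 : n + 3 * n = 4 * n := by ring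
  rw [h1] at h
  unfold XX
  linarith

theorem nn_rpow {ι : Type} (A c : ι → ℝ) (l : ℕ) (i : ι) (hA : 1 ≤ A i) (hc : 1 ≤ c i) :
    nn A c l i ^ c i = A i ^ c i * 2 ^ l := by
  unfold nn
  rw [Real.mul_rpow (by linarith) (by positivity), ← Real.rpow_mul (by positivity),
    one_div, inv_mul_cancel₀ (by linarith), Real.rpow_one]

theorem one_le_nn {ι : Type} (A c : ι → ℝ) (l : ℕ) (i : ι) (hA : 1 ≤ A i) (hc : 1 ≤ c i) :
    1 ≤ nn A c l i := by
  unfold nn
  have h1 : (1 : ℝ) ≤ ((2 : ℝ) ^ l) ^ (1 / c i) :=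
    Real.one_le_rpow (one_le_pow₀ (by norm_num)) (by positivity)
  nlinarith

/-- the sum over one variable. -/
theorem inner (R a c n h T v : ℝ) (F : ℕ → ℝ) (hR : 0 < R) (ha : 0 < a) (hc : 1 ≤ c) (hn : 1 ≤ n)
    (hv : 5 / 4 * n ≤ v) (hv2 : v ≤ 3 * n) (hT : T = a * v ^ c) (h2 : 2 ≤ h) (hhn : h ≤ n)
    (hh : a * (c * (4 * n) ^ (c - 1)) * h ≤ 1 / R)
    (hF : ∀ z : ℕ, F z = R * Real.exp (-(Real.pi * R ^ 2 * (a * (z : ℝ) ^ c - T) ^ 2))) :
    h / 2 * (R * Real.exp (-Real.pi)) ≤ ∑ z ∈ XX n, F z := by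
  have hsub : Ioc ⌊v⌋₊ ⌊v + h⌋₊ ⊆ XX n := by
    unfold XX
    refine Finset.Ioc_subset_Ioc (Nat.floor_le_floor (by linarith)) (Nat.floor_le_floor (by linarith))
  have hnn : ∀ z, 0 ≤ F z := by
    intro z
    rw [hF]
    positivity
  refine le_trans ?_ (Finset.sum_le_sum_of_subset_of_nonneg hsub fun z _ _ => hnn z)
  have hc1 := card_ge v h (by linarith)
  have h3 : ((Ioc ⌊v⌋₊ ⌊v + h⌋₊).card : ℝ) * (R * Real.exp (-Real.pi)) ≤
      ∑ z ∈ Ioc ⌊v⌋₊ ⌊v + h⌋₊, F z := by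
    rw [← nsmul_eq_mul]
    refine Finset.card_nsmul_le_sum _ _ _ fun z hz => ?_
    rw [Finset.mem_Ioc] at hz
    have hz1 : v < z := by
      have := (Nat.floor_lt (by linarith)).1 hz.1
      exact this
    have hz2 : (z : ℝ) ≤ v + h := by
      have := (Nat.le_floor_iff (by linarith)).1 hz.2
      exact this
    rw [hF]
    refine mul_le_mul_of_nonneg_left ?_ hR.le
    refine Real.exp_le_exp.2 ?_
    rw [neg_le_neg_iff]
    have h4 : (z : ℝ) ^ c - v ^ c ≤ c * (z : ℝ) ^ (c - 1) * (z - v) :=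
      rpow_sub_le c v z hc (by linarith) (by linarith)
    have h5 : v ^ c ≤ (z : ℝ) ^ c := Real.rpow_le_rpow (by linarith) hz1.le (by linarith)
    have h6 : (z : ℝ) ^ (c - 1) ≤ (4 * n) ^ (c - 1) :=
      Real.rpow_le_rpow (by linarith) (by linarith) (by linarith)
    have h7 : c * (z : ℝ) ^ (c - 1) * (z - v) ≤ c * (4 * n) ^ (c - 1) * h := by
      have h8 : 0 ≤ (z : ℝ) ^ (c - 1) := Real.rpow_nonneg (by linarith) _
      have h9 : 0 ≤ (4 * n) ^ (c - 1) := Real.rpow_nonneg (by linarith) _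
      refine mul_le_mul (mul_le_mul_of_nonneg_left h6 (by linarith)) (by linarith) (by linarith)
        (by positivity)
    have h8 : 0 ≤ a * (z : ℝ) ^ c - T := by
      rw [hT]
      nlinarith
    have h9 : a * (z : ℝ) ^ c - T ≤ 1 / R := by
      rw [hT]
      have : a * ((z : ℝ) ^ c - v ^ c) ≤ a * (c * (4 * n) ^ (c - 1) * h) :=
        mul_le_mul_of_nonneg_left (h4.trans h7) ha.le
      nlinarith
    have h10 : (R * (a * (z : ℝ) ^ c - T)) ≤ 1 := by
      rw [le_div_iff₀ hR] at h9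
      linarith
    have h11 : (R * (a * (z : ℝ) ^ c - T)) ^ 2 ≤ 1 := by
      have : 0 ≤ R * (a * (z : ℝ) ^ c - T) := mul_nonneg hR.le h8
      nlinarith
    calc Real.pi * R ^ 2 * (a * (z : ℝ) ^ c - T) ^ 2
        = Real.pi * (R * (a * (z : ℝ) ^ c - T)) ^ 2 := by ring
      _ ≤ Real.pi * 1 := mul_le_mul_of_nonneg_left h11 Real.pi_pos.le
      _ = Real.pi := mul_one _
  refine le_trans ?_ h3
  refine mul_le_mul_of_nonneg_right (by linarith) (by positivity)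

theorem s_COARSE : S_COARSE := by
  intro ι _ _ i₀ a A c hdom κ hκ hκc
  obtain ⟨ha, hA, hc, hd⟩ := hdom
  have hc0 : 0 < c i₀ := by linarith [hc i₀]
  have hA0 : 0 < A i₀ := by linarith [hA i₀]
  set K : ℝ := a i₀ * c i₀ * 4 ^ (c i₀ - 1) * A i₀ ^ c i₀ with hK
  have hKpos : 0 < K := by
    have := ha i₀
    positivity
  refine ⟨Real.exp (-Real.pi) / (2 * K), by positivity, ?_⟩
  have ht : Tendsto (fun l : ℕ => (2 : ℝ) ^ l) atTop atTop :=
    tendsto_pow_atTop_atTop_of_one_lt (by norm_num)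
  have ht1 : ∀ᶠ l : ℕ in atTop, K⁻¹ ≤ ((2 : ℝ) ^ l) ^ κ :=
    ((tendsto_rpow_atTop hκ).comp ht).eventually_ge_atTop _
  have ht2 : ∀ᶠ l : ℕ in atTop, 2 * K ≤ ((2 : ℝ) ^ l) ^ (1 / c i₀ - κ) :=
    ((tendsto_rpow_atTop (by linarith)).comp ht).eventually_ge_atTop _
  filter_upwards [ht1, ht2] with l hl1 hl2
  intro τ hτ1 hτ2
  set H : ℝ := (2 : ℝ) ^ l with hH
  have hHpos : 0 < H := by positivity
  set R : ℝ := H ^ (-1 + κ) with hRdef
  have hRpos : 0 < R := by positivity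
  set n : ℝ := nn A c l i₀ with hn
  have hn1 : 1 ≤ n := one_le_nn A c l i₀ (hA i₀) (hc i₀)
  have hnpos : 0 < n := by linarith
  have hnc : n ^ c i₀ = A i₀ ^ c i₀ * H := nn_rpow A c l i₀ (hA i₀) (hc i₀)
  -- the length of the window
  set h : ℝ := n * H ^ (-κ) / K with hh
  have hh2 : 2 ≤ h := by
    rw [hh, le_div_iff₀ hKpos]
    have h1 : n * H ^ (-κ) = A i₀ * H ^ (1 / c i₀ - κ) := by
      rw [hn]
      unfold nn
      rw [mul_assoc, ← hH, ← Real.rpow_add hHpos]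
      rfl
    rw [h1]
    have h2 : 0 ≤ H ^ (1 / c i₀ - κ) := by positivity
    have := hA i₀
    nlinarith
  have hhn : h ≤ n := by
    rw [hh, div_le_iff₀ hKpos, Real.rpow_neg hHpos.le]
    refine mul_le_mul_of_nonneg_left ?_ hnpos.le
    rw [inv_le_comm₀ (by positivity) hKpos]
    exact hl1
  have hhR : a i₀ * (c i₀ * (4 * n) ^ (c i₀ - 1)) * h = 1 / R := by
    have h1 : (4 * n) ^ (c i₀ - 1) = 4 ^ (c i₀ - 1) * n ^ (c i₀ - 1) :=
      Real.mul_rpow (by norm_num) hnpos.le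
    have h2 : n ^ (c i₀ - 1) * n = A i₀ ^ c i₀ * H := by
      rw [← Real.rpow_add_one hnpos.ne', ← hnc]
      congr 1
      ring
    have h3 : 1 / R = H * H ^ (-κ) := by
      rw [hRdef, one_div, ← Real.rpow_neg hHpos.le]
      have : H * H ^ (-κ) = H ^ (1 : ℝ) * H ^ (-κ) := by rw [Real.rpow_one]
      rw [this, ← Real.rpow_add hHpos]
      congr 1
      ring
    rw [h3, h1, hh]
    have h4 : a i₀ * (c i₀ * (4 ^ (c i₀ - 1) * n ^ (c i₀ - 1))) * (n * H ^ (-κ) / K) =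
        a i₀ * c i₀ * 4 ^ (c i₀ - 1) * (n ^ (c i₀ - 1) * n) * H ^ (-κ) / K := by ring
    rw [h4, h2]
    rw [div_eq_iff hKpos.ne', hK]
    ring
  -- the sum over one variable
  set F : (ι → ℕ) → ℝ := fun x => R * Real.exp (-(Real.pi * R ^ 2 * (GG a c x - τ) ^ 2)) with hF
  have hinner : ∀ x ∈ BX A c l, h / 2 * (R * Real.exp (-Real.pi)) ≤
      ∑ z ∈ XX n, F (Function.update x i₀ z) := by
    intro x hx
    have hxi : ∀ i, (x i : ℝ) ≤ 4 * nn A c l i := by
      intro i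
      have h1 := (Fintype.mem_piFinset.1 hx) i
      unfold XX at h1
      rw [Finset.mem_Ioc] at h1
      have h2 := one_le_nn A c l i (hA i) (hc i)
      exact (Nat.le_floor_iff (by linarith)).1 h1.2
    set S : ℝ := ∑ i ∈ univ.erase i₀, a i * (x i : ℝ) ^ c i with hS
    have hS0 : 0 ≤ S := Finset.sum_nonneg fun i _ => by
      have := ha i
      positivity
    have hS1 : S ≤ a i₀ * A i₀ ^ c i₀ * ((3 / 2 : ℝ) ^ c i₀ - (5 / 4 : ℝ) ^ c i₀) * H := by
      refine le_trans ?_ (mul_le_mul_of_nonneg_right hd hHpos.le)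
      rw [Finset.sum_mul, hS]
      refine Finset.sum_le_sum fun i _ => ?_
      rw [mul_assoc]
      refine mul_le_mul_of_nonneg_left ?_ (ha i).le
      have h2 := one_le_nn A c l i (hA i) (hc i)
      have hAi := hA i
      have hci := hc i
      calc (x i : ℝ) ^ c i ≤ (4 * nn A c l i) ^ c i :=
            Real.rpow_le_rpow (Nat.cast_nonneg _) (hxi i) (by linarith)
        _ = (4 * A i) ^ c i * H := by
            rw [Real.mul_rpow (by norm_num) (by linarith), nn_rpow A c l i (hA i) (hc i),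
              Real.mul_rpow (by norm_num) (by linarith)]
            ring
    set T : ℝ := τ - S with hT
    have hT1 : a i₀ * (5 / 4 * n) ^ c i₀ ≤ T := by
      rw [Real.mul_rpow (by norm_num) hnpos.le, hnc]
      have h1 : a i₀ * ((5 / 4) ^ c i₀ * (A i₀ ^ c i₀ * H)) =
        a i₀ * A i₀ ^ c i₀ * (3 / 2) ^ c i₀ * H -
        a i₀ * A i₀ ^ c i₀ * ((3 / 2 : ℝ) ^ c i₀ - (5 / 4 : ℝ) ^ c i₀) * H := by ring
      rw [h1, hT]
      linarith
    have hT2 : T ≤ a i₀ * (3 * n) ^ c i₀ := by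
      rw [Real.mul_rpow (by norm_num) hnpos.le, hnc]
      have h1 : a i₀ * (3 ^ c i₀ * (A i₀ ^ c i₀ * H)) = a i₀ * A i₀ ^ c i₀ * 3 ^ c i₀ * H := by ring
      rw [h1, hT]
      linarith
    have hTa : 0 ≤ T / a i₀ := by
      have h1 := ha i₀
      have h2 : 0 ≤ a i₀ * (5 / 4 * n) ^ c i₀ := by positivity
      exact div_nonneg (by linarith) h1.le
    set v : ℝ := (T / a i₀) ^ (1 / c i₀) with hv
    have hvc : v ^ c i₀ = T / a i₀ := by
      rw [hv, ← Real.rpow_mul hTa, one_div, inv_mul_cancel₀ hc0.ne', Real.rpow_one]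
    have hTv : T = a i₀ * v ^ c i₀ := by
      rw [hvc, mul_div_cancel₀ _ (ha i₀).ne']
    have hv0 : 0 ≤ v := by positivity
    have hv1 : 5 / 4 * n ≤ v := by
      rw [hTv] at hT1
      have h1 := le_of_mul_le_mul_left hT1 (ha i₀)
      exact (Real.rpow_le_rpow_iff (by positivity) hv0 hc0).1 h1
    have hv2 : v ≤ 3 * n := by
      rw [hTv] at hT2
      have h1 := le_of_mul_le_mul_left hT2 (ha i₀)
      exact (Real.rpow_le_rpow_iff hv0 (by positivity) hc0).1 h1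
    refine inner R (a i₀) (c i₀) n h T v (fun z => F (Function.update x i₀ z)) hRpos (ha i₀) (hc i₀)
      hn1 hv1 hv2 hTv hh2 hhn hhR.le ?_
    intro z
    have hG : GG a c (Function.update x i₀ z) - τ = a i₀ * (z : ℝ) ^ c i₀ - T := by
      unfold GG
      rw [← Finset.add_sum_erase univ _ (Finset.mem_univ i₀), Function.update_self]
      have h1 : ∑ i ∈ univ.erase i₀, a i * ((Function.update x i₀ z i : ℕ) : ℝ) ^ c i = S := by
        refine Finset.sum_congr rfl fun i hi => ?_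
        rw [Function.update_of_ne (Finset.ne_of_mem_erase hi)]
      rw [h1, hT]
      ring
    simp only [hF, hG]
  have hsw := s_SWAP ι i₀ (fun i => XX (nn A c l i)) F
  have hlow : ((BX A c l).card : ℝ) * (h / 2 * (R * Real.exp (-Real.pi))) ≤
      ((XX n).card : ℝ) * ∑ x ∈ BX A c l, F x := by
    rw [← nsmul_eq_mul]
    calc (BX A c l).card • (h / 2 * (R * Real.exp (-Real.pi)))
        ≤ ∑ x ∈ BX A c l, ∑ z ∈ XX n, F (Function.update x i₀ z) :=
          Finset.card_nsmul_le_sum _ _ _ hinner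
      _ = _ := hsw
  have hcard : ((BX A c l).card : ℝ) =
      ((XX n).card : ℝ) * ∏ i ∈ univ.erase i₀, ((XX (nn A c l i)).card : ℝ) := by
    unfold BX
    rw [Fintype.card_piFinset, Nat.cast_prod, ← Finset.mul_prod_erase univ _ (Finset.mem_univ i₀)]
  have hXpos : 0 < ((XX n).card : ℝ) := by linarith [card_XX_ge n hn1]
  have hprod : ∏ i, nn A c l i = n * ∏ i ∈ univ.erase i₀, nn A c l i := by
    rw [← Finset.mul_prod_erase univ _ (Finset.mem_univ i₀)]
  have hprod2 : ∏ i ∈ univ.erase i₀, nn A c l i ≤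
      ∏ i ∈ univ.erase i₀, ((XX (nn A c l i)).card : ℝ) := by
    refine Finset.prod_le_prod (fun i _ => ?_) fun i _ => ?_
    · linarith [one_le_nn A c l i (hA i) (hc i)]
    · exact card_XX_ge _ (one_le_nn A c l i (hA i) (hc i))
  have hlow2 : (∏ i ∈ univ.erase i₀, nn A c l i) * (h / 2 * (R * Real.exp (-Real.pi))) ≤
      ∑ x ∈ BX A c l, F x := by
    refine le_trans (mul_le_mul_of_nonneg_right hprod2 (by positivity)) ?_
    rw [hcard, mul_assoc] at hlow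
    exact le_of_mul_le_mul_left hlow hXpos
  refine le_trans (le_of_eq ?_) hlow2
  rw [hprod]
  -- `h R = n / (K H)`
  have hRH : R * H ^ (-κ) = H⁻¹ := by
    rw [hRdef, ← Real.rpow_add hHpos, ← Real.rpow_neg_one]
    congr 1
    ring
  have h5 : h / 2 * (R * Real.exp (-Real.pi)) = n * (R * H ^ (-κ)) * Real.exp (-Real.pi) / (2 * K) := by
    rw [hh]
    field_simp
  rw [h5, hRH]
  field_simp

end Pool.Agent.L7h97.GC
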